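import Pool.Agent.Helper45.LinK.GoalsK

open Complex Metric Set Filter Topology MeasureTheory
open scoped ContDiff ComplexConjugate ComplexOrder

namespace Pool.Agent.Helper29.LinK

open Pool.Agent.Helper45.LinK
open Pool.Agent.Helper95.Lin Pool.Agent.Helper16.Abund Pool.Agent.Helper92.Orb

lemma unip_norm_sum (s : Multiset ℂ) (h : ∀ x ∈ s, ‖x‖ ≤ 1) : ‖s.sum‖ ≤ s.card := by
  induction s using Multiset.induction_on with
  | empty => simp
  | cons a t ih =>
    rw [Multiset.sum_cons, Multiset.card_cons]
    have h1 := h a (Multiset.mem_cons_self a t)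
    have h2 := ih fun x hx => h x (Multiset.mem_cons_of_mem hx)
    calc ‖a + t.sum‖ ≤ ‖a‖ + ‖t.sum‖ := norm_add_le _ _
      _ ≤ ((t.card + 1 : ℕ) : ℝ) := by push_cast; linarith

lemma unip_eq_one {z : ℂ} {r : ℝ} (hz : ‖z‖ ≤ r) (hr : r ≤ z.re) : z = r := by
  have h1 : z.re ^ 2 + z.im ^ 2 = ‖z‖ ^ 2 := by
    rw [← Complex.normSq_eq_norm_sq, Complex.normSq_apply]; ring
  have h2 : |z.re| ≤ ‖z‖ := Complex.abs_re_le_norm z
  have h3 : z.re ≤ ‖z‖ := (le_abs_self _).trans h2
  have h4 : z.re = r := by linarith
  have h5 : ‖z‖ = r := by linarith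
  have h6 : z.im ^ 2 = 0 := by rw [h4, h5] at h1; linarith
  have h7 : z.im = 0 := by simpa using h6
  apply Complex.ext <;> simp [h4, h7]

lemma unip_all_one (s : Multiset ℂ) (h : ∀ x ∈ s, ‖x‖ ≤ 1) (hs : s.sum = s.card) :
    ∀ x ∈ s, x = 1 := by
  induction s using Multiset.induction_on with
  | empty => simp
  | cons a t ih =>
    have h1 := h a (Multiset.mem_cons_self a t)
    have h1' : ∀ x ∈ t, ‖x‖ ≤ 1 := fun x hx => h x (Multiset.mem_cons_of_mem hx)
    have h2 := unip_norm_sum t h1'
    rw [Multiset.sum_cons, Multiset.card_cons] at hs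
    have h3 : a.re + t.sum.re = t.card + 1 := by
      have := congrArg Complex.re hs
      simpa using this
    have h4 : t.sum.re ≤ t.card := ((le_abs_self _).trans (Complex.abs_re_le_norm _)).trans h2
    have h5 : a.re ≤ 1 := ((le_abs_self _).trans (Complex.abs_re_le_norm _)).trans h1
    have h6 : a = ((1 : ℝ) : ℂ) := unip_eq_one h1 (by linarith)
    have h7 : t.sum = ((t.card : ℝ) : ℂ) := unip_eq_one h2 (by linarith)
    intro x hx
    rcases Multiset.mem_cons.1 hx with rfl | hx
    · simpa using h6
    · exact ih h1' (by simpa using h7) x hx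

theorem t_UNIP : S_UNIP := by
  intro k L C hC
  set f : Module.End ℂ (Cn k) := (L : Cn k →ₗ[ℂ] Cn k) with hf
  have hpow : ∀ (n : ℕ) (v : Cn k), (f ^ n) v = (L ^ n) v := by
    intro n
    induction n with
    | zero => intro v; simp
    | succ n ih =>
      intro v
      rw [pow_succ, pow_succ, Module.End.mul_apply, mul_apply_eq_comp, ih]
      rfl
  have hC' : ∀ (n : ℕ) (v : Cn k), ‖(f ^ n) v‖ ≤ C * ‖v‖ := by
    intro n v
    rw [hpow]
    exact ((L ^ n).le_opNorm v).trans (mul_le_mul_of_nonneg_right (hC n) (norm_nonneg v))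
  have hspl : f.charpoly.Splits := IsAlgClosed.splits _
  have hroot : ∀ x ∈ f.charpoly.roots, ‖x‖ ≤ 1 := by
    intro x hx
    have hx1 : f.charpoly.IsRoot x := (Polynomial.mem_roots'.1 hx).2
    have hx2 := (Module.End.hasEigenvalue_iff_isRoot_charpoly f x).2 hx1
    obtain ⟨v, hv⟩ := hx2.exists_hasEigenvector
    by_contra hlt
    push Not at hlt
    have hv0 : 0 < ‖v‖ := norm_pos_iff.2 hv.2
    have hn : ∀ n : ℕ, ‖x‖ ^ n ≤ C := by
      intro n
      have h1 := hC' n v
      rw [hv.pow_apply n, norm_smul, norm_pow] at h1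
      exact le_of_mul_le_mul_right h1 hv0
    obtain ⟨n, hn'⟩ := pow_unbounded_of_one_lt C hlt
    exact absurd (hn n) (not_le.2 hn')
  have hcard : f.charpoly.roots.card = k := by
    rw [← hspl.natDegree_eq_card_roots, LinearMap.charpoly_natDegree]
    simp
  have htr : LinearMap.trace ℂ (Cn k) f = f.charpoly.roots.sum :=
    Module.End.trace_eq_sum_roots_charpoly_of_splits hspl
  refine ⟨?_, ?_⟩
  · rw [htr]
    have := unip_norm_sum _ hroot
    rwa [hcard] at this
  · intro hk
    rw [htr] at hk
    have h1 := unip_all_one _ hroot (by rw [hk, hcard])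
    have h2 : f.charpoly.roots = Multiset.replicate k 1 := by
      rw [Multiset.eq_replicate]
      exact ⟨hcard, h1⟩
    have h3 : f.charpoly = (Polynomial.X - Polynomial.C 1) ^ k := by
      rw [hspl.eq_prod_roots_of_monic f.charpoly_monic, h2]
      simp
    have h4 : (f - 1) ^ k = 0 := by
      have := LinearMap.aeval_self_charpoly f
      rw [h3] at this
      simpa using this
    have h5 : ∀ u, (f - 1) ((f - 1) u) = 0 → (f - 1) u = 0 := by
      intro u hu
      by_contra hne
      set v := (f - 1) u with hv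
      have hfv : f v = v := by
        have : f v - v = 0 := hu
        exact sub_eq_zero.1 this
      have hfu : f u = u + v := by
        rw [hv]; simp
      have hn : ∀ n : ℕ, (f ^ n) u = u + (n : ℂ) • v := by
        intro n
        induction n with
        | zero => simp
        | succ n ih =>
          rw [pow_succ', Module.End.mul_apply, ih, map_add, map_smul, hfu, hfv]
          push_cast
          rw [add_smul, one_smul]
          abel
      have hv0 : 0 < ‖v‖ := norm_pos_iff.2 hne
      obtain ⟨n, hn'⟩ := exists_nat_gt ((C * ‖u‖ + ‖u‖) / ‖v‖)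
      rw [div_lt_iff₀ hv0] at hn'
      have h6 := hC' n u
      rw [hn n] at h6
      have h7 : ‖(n : ℂ) • v‖ ≤ ‖u + (n : ℂ) • v‖ + ‖u‖ := by
        have := norm_sub_le (u + (n : ℂ) • v) u
        simpa using this
      rw [norm_smul, Complex.norm_natCast] at h7
      linarith
    have h6 : ∀ (j : ℕ) (x : Cn k), ((f - 1) ^ (j + 1)) x = 0 → (f - 1) x = 0 := by
      intro j
      induction j with
      | zero => intro x hx; simpa using hx
      | succ j ih =>
        intro x hx
        apply ih
        rw [pow_succ', Module.End.mul_apply]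
        apply h5
        rw [pow_succ', pow_succ', Module.End.mul_apply, Module.End.mul_apply] at hx
        exact hx
    have h7 : ∀ x : Cn k, (f - 1) x = 0 := by
      intro x
      apply h6 k
      rw [pow_succ', h4]
      simp
    ext x : 1
    have := h7 x
    have h8 : f x - x = 0 := this
    have h9 : f x = x := sub_eq_zero.1 h8
    exact h9

end Pool.Agent.Helper29.LinK
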